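import Pool.Agent.Lib.MP_059e53_co.Three

/-!
# MP_059e53_co: sub-matrices equal to a permutation matrix of order three
-/

set_option autoImplicit false

namespace Pool.Agent.Lib.MP059e53

open Finset

/-- The number of `h × h` sub-matrices of `M` (rows and columns in increasing order) which are equal
to `H`. -/
noncomputable def cnt {h n : ℕ} (H : Fin h → Fin h → ℕ) (M : Fin n → Fin n → ℕ) : ℕ :=
  Fintype.card {p : (Fin h ↪o Fin n) × (Fin h ↪o Fin n) // ∀ a b, M (p.1 a) (p.2 b) = H a b}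

/-- The density `d(H, M)`. -/
noncomputable def dens {h n : ℕ} (H : Fin h → Fin h → ℕ) (M : Fin n → Fin n → ℕ) : ℝ :=
  (cnt H M : ℝ) / (n.choose h : ℝ) ^ 2

/-- The maximal density `f(H, n)`. -/
noncomputable def fn {h : ℕ} (H : Fin h → Fin h → ℕ) (n : ℕ) : ℝ :=
  ⨆ M : Fin n → Fin n → ℕ, dens H M

/-- `H` is a minimizer: `f(H, n)` tends to `(h!)² / h^(2h)`. -/
def IsMinimizer {h : ℕ} (H : Fin h → Fin h → ℕ) : Prop :=
  Filter.Tendsto (fn H) Filter.atTop (nhds ((h.factorial : ℝ) ^ 2 / (h : ℝ) ^ (2 * h)))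

/-- The permutation matrix of `π`. -/
def pm {h : ℕ} (π : Equiv.Perm (Fin h)) : Fin h → Fin h → ℕ := fun a b => if π a = b then 1 else 0

section upper

variable {n : ℕ} (M : Fin n → Fin n → ℕ)

/-- the relation `M x s = 1`. -/
def RM : Fin n → Fin n → Prop := fun x s => M x s = 1

instance : ∀ x s, Decidable (RM M x s) := fun x s => inferInstanceAs (Decidable (M x s = 1))

/-- the labelled copies: `(s, x), (t, u), (y, z)`. -/
def Lab (R : Fin n → Fin n → Prop) (p : (Fin n × Fin n) × (Fin n × Fin n) × (Fin n × Fin n)) :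
    Prop :=
  R p.1.2 p.1.1 ∧ ¬ R p.1.2 p.2.1.1 ∧ ¬ R p.1.2 p.2.1.2 ∧ ¬ R p.2.2.1 p.1.1 ∧ ¬ R p.2.2.2 p.1.1 ∧
    R p.2.2.1 p.2.1.1 ∧ ¬ R p.2.2.1 p.2.1.2 ∧ R p.2.2.2 p.2.1.2 ∧ ¬ R p.2.2.2 p.2.1.1

instance (R : Fin n → Fin n → Prop) [∀ x s, Decidable (R x s)] : DecidablePred (Lab R) :=
  fun p => by
    unfold Lab
    infer_instance

theorem sum_Br (R : Fin n → Fin n → Prop) [∀ x s, Decidable (R x s)] (x : Fin n) (f : Fin n → ℝ) :
    ∑ t ∈ Br R x, f t = ∑ t, (1 - ind R x t) * f t := by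
  rw [Br, Finset.sum_filter]
  refine Finset.sum_congr rfl fun y _ => ?_
  unfold ind
  split_ifs <;> simp_all

theorem Q3_eq (R : Fin n → Fin n → Prop) [∀ x s, Decidable (R x s)] :
    Q3 R = (Fintype.card {p // Lab R p} : ℝ) := by
  rw [Fintype.card_subtype, Finset.card_filter]
  push_cast
  rw [Fintype.sum_prod_type, Fintype.sum_prod_type]
  unfold Q3
  refine Finset.sum_congr rfl fun s _ => Finset.sum_congr rfl fun x _ => ?_
  rw [Fintype.sum_prod_type, Fintype.sum_prod_type]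
  unfold Q2
  rw [sum_Br, Finset.mul_sum]
  refine Finset.sum_congr rfl fun t _ => ?_
  rw [sum_Br, Finset.mul_sum, Finset.mul_sum]
  refine Finset.sum_congr rfl fun u _ => ?_
  rw [sum_Ac, Fintype.sum_prod_type, Finset.mul_sum, Finset.mul_sum, Finset.mul_sum]
  refine Finset.sum_congr rfl fun y _ => ?_
  rw [sum_Ac, Finset.mul_sum, Finset.mul_sum, Finset.mul_sum, Finset.mul_sum]
  refine Finset.sum_congr rfl fun z _ => ?_
  unfold ind Lab
  by_cases h1 : R x s <;> by_cases h2 : R x t <;> by_cases h3 : R x u <;> by_cases h4 : R y s <;>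
    (by_cases h5 : R z s) <;> simp [h1, h2, h3, h4, h5] <;>
    by_cases h6 : R y t <;> by_cases h7 : R y u <;> by_cases h8 : R z u <;>
    by_cases h9 : R z t <;> simp [h6, h7, h8, h9]

theorem cnt_le (π : Equiv.Perm (Fin 3)) : (cnt (pm π) M : ℝ) ≤ (n : ℝ) ^ 6 / 729 := by
  -- the labelled copies
  have hval : ∀ (p : (Fin 3 ↪o Fin n) × (Fin 3 ↪o Fin n)),
      (∀ a b, M (p.1 a) (p.2 b) = pm π a b) → ∀ (τ : Equiv.Perm (Fin 3)) (i j : Fin 3),
      RM M (p.1 (τ i)) (p.2 (π (τ j))) ↔ i = j := by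
    intro p hp τ i j
    unfold RM
    rw [hp]
    unfold pm
    constructor
    · intro h
      by_contra hij
      rw [if_neg (fun h' => hij (τ.injective (π.injective h')))] at h
      exact absurd h (by norm_num)
    · rintro rfl
      rw [if_pos rfl]
  let F : {p : (Fin 3 ↪o Fin n) × (Fin 3 ↪o Fin n) // ∀ a b, M (p.1 a) (p.2 b) = pm π a b} ×
      Equiv.Perm (Fin 3) → {p // Lab (RM M) p} := fun q =>
    ⟨((q.1.1.2 (π (q.2 0)), q.1.1.1 (q.2 0)), (q.1.1.2 (π (q.2 1)), q.1.1.2 (π (q.2 2))),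
      (q.1.1.1 (q.2 1), q.1.1.1 (q.2 2))), by
      have h := hval q.1.1 q.1.2 q.2
      unfold Lab
      refine ⟨(h 0 0).2 rfl, fun h' => ?_, fun h' => ?_, fun h' => ?_, fun h' => ?_, (h 1 1).2 rfl,
        fun h' => ?_, (h 2 2).2 rfl, fun h' => ?_⟩
      · exact absurd ((h 0 1).1 h') (by decide)
      · exact absurd ((h 0 2).1 h') (by decide)
      · exact absurd ((h 1 0).1 h') (by decide)
      · exact absurd ((h 2 0).1 h') (by decide)
      · exact absurd ((h 1 2).1 h') (by decide)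
      · exact absurd ((h 2 1).1 h') (by decide)⟩
  have hF : Function.Injective F := by
    rintro ⟨⟨⟨r, c⟩, h⟩, τ⟩ ⟨⟨⟨r', c'⟩, h'⟩, τ'⟩ hq
    have h1 := congrArg Subtype.val hq
    simp only [F, Prod.mk.injEq] at h1
    obtain ⟨⟨c0, r0⟩, ⟨c1, c2⟩, r1, r2⟩ := h1
    have hr : ∀ i, r (τ i) = r' (τ' i) := by
      intro i
      fin_cases i
      · exact r0
      · exact r1
      · exact r2
    have hc : ∀ i, c (π (τ i)) = c' (π (τ' i)) := by
      intro i
      fin_cases i
      · exact c0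
      · exact c1
      · exact c2
    have hrange : Set.range r = Set.range r' := by
      ext v
      constructor
      · rintro ⟨i, rfl⟩
        refine ⟨τ' (τ.symm i), ?_⟩
        rw [← hr, τ.apply_symm_apply]
      · rintro ⟨i, rfl⟩
        refine ⟨τ (τ'.symm i), ?_⟩
        rw [hr, τ'.apply_symm_apply]
    have hrr : r = r' := by
      have := r.strictMono.range_inj r'.strictMono |>.1 hrange
      exact DFunLike.coe_injective this
    subst hrr
    have hτ : τ = τ' := Equiv.ext fun i => r.injective (hr i)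
    subst hτ
    have hcc : c = c' := by
      refine DFunLike.ext _ _ fun i => ?_
      have := hc (τ.symm (π.symm i))
      rwa [τ.apply_symm_apply, π.apply_symm_apply] at this
    subst hcc
    rfl
  have h1 := Fintype.card_le_of_injective F hF
  rw [Fintype.card_prod, Fintype.card_perm, Fintype.card_fin] at h1
  have h2 : (cnt (pm π) M : ℝ) * 6 ≤ Q3 (RM M) := by
    rw [Q3_eq]
    have h3 : ((cnt (pm π) M * Nat.factorial 3 : ℕ) : ℝ) ≤
        (Fintype.card {p // Lab (RM M) p} : ℝ) := by exact_mod_cast h1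
    push_cast at h3
    have h4 : ((Nat.factorial 3 : ℕ) : ℝ) = 6 := by norm_num [Nat.factorial]
    rw [h4] at h3
    exact h3
  rcases Nat.eq_zero_or_pos n with h0 | h0
  · subst h0
    have h3 : cnt (pm π) M = 0 := by
      unfold cnt
      rw [Fintype.card_eq_zero_iff]
      exact ⟨fun p => Fin.elim0 (p.1.1 0)⟩
    rw [h3]
    simp
  · have h3 := Q3_le (RM M) (n : ℝ) (by rw [Fintype.card_fin]) (by rw [Fintype.card_fin])
      (by exact_mod_cast h0)
    linarith

end upper

end Pool.Agent.Lib.MP059e53
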