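import Mathlib

set_option autoImplicit false

/-!
# MP_059e53_co: minimizers with four symbols, definitions
-/

namespace Pool.Agent.Lib.MP059e53

open Filter Topology

/-- The number of the `h × h` sub-matrices of `M` which are equal to `H`: rows `r 0 < .. < r (h-1)`
and columns `c 0 < .. < c (h-1)` with `M (r a) (c b) = H a b` for all `a`, `b`. The symbols are
natural numbers. -/
noncomputable def copies {h n : ℕ} (H : Matrix (Fin h) (Fin h) ℕ) (M : Matrix (Fin n) (Fin n) ℕ) :
    ℕ :=
  Nat.card {p : (Fin h ↪o Fin n) × (Fin h ↪o Fin n) // ∀ a b, M (p.1 a) (p.2 b) = H a b}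

/-- `f(H, n)`: the maximal density of `H` in an `n × n` matrix. -/
noncomputable def maxDensity {h : ℕ} (H : Matrix (Fin h) (Fin h) ℕ) (n : ℕ) : ℝ :=
  ⨆ M : Matrix (Fin n) (Fin n) ℕ, (copies H M : ℝ) / (n.choose h : ℝ) ^ 2

/-- `H` is a minimizer: `f(H, n)` tends to `(h!)² / h^(2h)`. -/
def IsMinimizer {h : ℕ} (H : Matrix (Fin h) (Fin h) ℕ) : Prop :=
  Tendsto (maxDensity H) atTop (𝓝 ((h.factorial : ℝ) ^ 2 / (h : ℝ) ^ (2 * h)))

/-- The matrix with first row `0, 1, 1, ..`; in the other rows the entries on the diagonal and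
left of it (at `(i, i)` and `(i, i - 1)`) are `2`, all others are `3`. -/
def fourMat (h : ℕ) : Matrix (Fin h) (Fin h) ℕ := Matrix.of fun i j =>
  if i.val = 0 then (if j.val = 0 then 0 else 1)
  else if j.val = i.val ∨ j.val + 1 = i.val then 2 else 3

end Pool.Agent.Lib.MP059e53
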