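import Pool.Agent.Lib.MP_059e53_co.Defs

set_option autoImplicit false

/-!
# MP_059e53_co: minimizers with four symbols, proof (helper58)
-/

namespace Pool.Agent.Lib.MP059e53

open Filter Topology Finset

/-- `a b^t ≤ t^t / (t+1)^(t+1) (a + b)^(t+1)`. -/
theorem amgm (t A B C : ℕ) (h : A + B ≤ C) :
    A * B ^ t * (t + 1) ^ (t + 1) ≤ t ^ t * C ^ (t + 1) := by
  rcases Nat.eq_zero_or_pos t with rfl | ht
  · simp
    omega
  rcases Nat.eq_zero_or_pos B with rfl | hB
  · rw [zero_pow ht.ne']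
    simp
  -- enough for C = A + B
  refine le_trans ?_ (Nat.mul_le_mul_left _ (Nat.pow_le_pow_left h (t + 1)))
  have key : ((A : ℝ) * (B : ℝ) ^ t) * ((t : ℝ) + 1) ^ (t + 1) ≤
      (t : ℝ) ^ t * ((A : ℝ) + B) ^ (t + 1) := by
    have htR : (0 : ℝ) < t := by exact_mod_cast ht
    have hBR : (0 : ℝ) < B := by exact_mod_cast hB
    have hA : (0 : ℝ) ≤ A := by positivity
    set s : ℝ := (A : ℝ) + B with hs
    have hs0 : 0 < s := by positivity
    -- x = t s / ((t + 1) B)
    set x : ℝ := t * s / ((t + 1) * B) with hx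
    have hx0 : 0 < x := by positivity
    have hbern := one_add_mul_le_pow (a := x - 1) (by linarith) t
    rw [show 1 + (x - 1) = x by ring] at hbern
    -- (t + 1) A / s ≤ x ^ t
    have h1 : (t + 1) * (A / s) ≤ x ^ t := by
      refine le_trans ?_ hbern
      have hy : A / s = 1 - B / s := by
        rw [hs]; field_simp; ring
      have hyx : B / s = t / ((t + 1) * x) := by
        rw [hx]; field_simp
      rw [hy, hyx]
      have h2 : (t + 1) * (1 - t / ((t + 1) * x)) = t + 1 - t / x := by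
        field_simp
      rw [h2]
      have h3 : 0 ≤ t * (x - 1) ^ 2 / x := by positivity
      have h4 : t * (x - 1) ^ 2 / x = t * x - 2 * t + t / x := by
        field_simp
        ring
      linarith
    have h5 : x ^ t * ((t + 1) ^ t * (B : ℝ) ^ t) = t ^ t * s ^ t := by
      rw [← mul_pow, ← mul_pow, ← mul_pow, hx]
      congr 1
      field_simp
    have h6 : (A : ℝ) * (t + 1) = (t + 1) * (A / s) * s := by
      field_simp
    calc ((A : ℝ) * (B : ℝ) ^ t) * ((t : ℝ) + 1) ^ (t + 1)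
        = (A * (t + 1)) * ((t + 1) ^ t * (B : ℝ) ^ t) := by ring
      _ = ((t + 1) * (A / s)) * ((t + 1) ^ t * (B : ℝ) ^ t) * s := by rw [h6]; ring
      _ ≤ x ^ t * ((t + 1) ^ t * (B : ℝ) ^ t) * s := by gcongr
      _ = t ^ t * s ^ (t + 1) := by rw [h5]; ring
  exact_mod_cast key

/-- one split. -/
theorem step {ι : Type} [Fintype ι] [DecidableEq ι] (k : ι) (T : Finset ι) (hk : k ∉ T)
    (f' f : ι → ℕ) (A B C : ℕ) (h0 : f' k = A) (hT : ∀ i ∈ T, f' i = B) (hkf : f k = C)
    (hTf : ∀ i ∈ T, f i = C) (hABC : A + B ≤ C) (hrest : ∀ i, i ∉ insert k T → f' i ≤ f i) :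
    (∏ i, f' i) * (T.card + 1) ^ (T.card + 1) ≤ T.card ^ T.card * ∏ i, f i := by
  rw [← Finset.prod_mul_prod_compl (insert k T) f', ← Finset.prod_mul_prod_compl (insert k T) f,
    Finset.prod_insert hk, Finset.prod_insert hk, h0, hkf, Finset.prod_congr rfl hT,
    Finset.prod_congr rfl hTf, Finset.prod_const, Finset.prod_const]
  have h1 : ∏ i ∈ (insert k T)ᶜ, f' i ≤ ∏ i ∈ (insert k T)ᶜ, f i :=
    Finset.prod_le_prod' fun i hi => hrest i (Finset.mem_compl.1 hi)
  have h2 := amgm T.card A B C hABC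
  calc A * B ^ T.card * (∏ i ∈ (insert k T)ᶜ, f' i) * (T.card + 1) ^ (T.card + 1)
      = (A * B ^ T.card * (T.card + 1) ^ (T.card + 1)) * ∏ i ∈ (insert k T)ᶜ, f' i := by ring
    _ ≤ (T.card ^ T.card * C ^ (T.card + 1)) * ∏ i ∈ (insert k T)ᶜ, f i := Nat.mul_le_mul h2 h1
    _ = T.card ^ T.card * (C * C ^ T.card * ∏ i ∈ (insert k T)ᶜ, f i) := by ring

section count

variable {α β ι κ : Type} [Fintype α] [Fintype β] [Fintype ι] [Fintype κ]

/-- The number of the pairs of maps with all relations. -/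
noncomputable def W (R : ι → κ → α → β → Prop) : ℕ :=
  Nat.card {p : (ι → α) × (κ → β) // ∀ i j, R i j (p.1 i) (p.2 j)}

theorem W_rows [DecidableEq ι] (R : ι → κ → α → β → Prop) :
    W R = ∑ r : ι → α, ∏ j, {y | ∀ i, R i j (r i) y}.ncard := by
  let e : {p : (ι → α) × (κ → β) // ∀ i j, R i j (p.1 i) (p.2 j)} ≃
      Σ r : ι → α, ∀ j, {y : β // ∀ i, R i j (r i) y} :=
    { toFun := fun p => ⟨p.1.1, fun j => ⟨p.1.2 j, fun i => p.2 i j⟩⟩
      invFun := fun q => ⟨(q.1, fun j => (q.2 j).1), fun i j => (q.2 j).2 i⟩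
      left_inv := fun _ => rfl
      right_inv := fun _ => rfl }
  unfold W
  rw [Nat.card_congr e, Nat.card_sigma]
  refine Finset.sum_congr rfl fun r _ => ?_
  rw [Nat.card_pi]
  rfl

theorem W_cols [DecidableEq κ] (R : ι → κ → α → β → Prop) :
    W R = ∑ c : κ → β, ∏ i, {x | ∀ j, R i j x (c j)}.ncard := by
  let e : {p : (ι → α) × (κ → β) // ∀ i j, R i j (p.1 i) (p.2 j)} ≃
      Σ c : κ → β, ∀ i, {x : α // ∀ j, R i j x (c j)} :=
    { toFun := fun p => ⟨p.1.2, fun i => ⟨p.1.1 i, fun j => p.2 i j⟩⟩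
      invFun := fun q => ⟨(fun i => (q.2 i).1, q.1), fun i j => (q.2 i).2 j⟩
      left_inv := fun _ => rfl
      right_inv := fun _ => rfl }
  unfold W
  rw [Nat.card_congr e, Nat.card_sigma]
  refine Finset.sum_congr rfl fun r _ => ?_
  rw [Nat.card_pi]
  rfl

end count

/-- The entries allowed after `a` splits of rows and `b` splits of columns. -/
def Pt (a b i j s : ℕ) : Prop :=
  if i = 0 then
    (if a = 0 then True else if b = 0 then s = 0 ∨ s = 1 else s = if j = 0 then 0 else 1)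
  else
    (if a = 0 then True else if i < b ∨ j + 1 < a then s = (if j = i ∨ j + 1 = i then 2 else 3)
      else s = 2 ∨ s = 3)

section main

variable {h n : ℕ} (M : Matrix (Fin n) (Fin n) ℕ)

/-- the number of the tuples after the splits. -/
noncomputable def WW (h a b : ℕ) (M : Matrix (Fin n) (Fin n) ℕ) : ℕ :=
  W fun (i : Fin h) (j : Fin h) (x : Fin n) (y : Fin n) => Pt a b i.val j.val (M x y)

theorem WW_zero : WW h 0 0 M = n ^ (2 * h) := by
  unfold WW
  rw [W_rows]
  have h1 : ∀ (r : Fin h → Fin n) (j : Fin h),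
      {y | ∀ i : Fin h, Pt 0 0 i.val j.val (M (r i) y)}.ncard = n := by
    intro r j
    have h2 : {y | ∀ i : Fin h, Pt 0 0 i.val j.val (M (r i) y)} = Set.univ := by
      ext y
      simp only [Set.mem_ofPred_eq, Set.mem_univ, iff_true]
      intro i
      unfold Pt
      split_ifs <;> trivial
    rw [h2, Set.ncard_univ, Nat.card_eq_fintype_card, Fintype.card_fin]
  simp only [h1, Finset.prod_const, Finset.sum_const, Finset.card_univ, Fintype.card_fun,
    Fintype.card_fin, smul_eq_mul]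
  rw [two_mul, pow_add]

theorem card_T (a : ℕ) (ha : a < h) :
    (univ.filter fun i : Fin h => a < i.val).card = h - 1 - a := by
  have h1 : (univ.filter fun i : Fin h => a < i.val) = Finset.Ioi ⟨a, ha⟩ := by
    ext i
    simp [Fin.lt_def]
  rw [h1, Fin.card_Ioi]

theorem row_step (a : ℕ) (ha : a < h) :
    WW h (a + 1) a M * (h - a) ^ (h - a) ≤ (h - 1 - a) ^ (h - 1 - a) * WW h a a M := by
  unfold WW
  rw [W_cols, W_cols, Finset.sum_mul, Finset.mul_sum]
  refine Finset.sum_le_sum fun c _ => ?_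
  have h2 := step (⟨a, ha⟩ : Fin h) (univ.filter fun i : Fin h => a < i.val) (by simp)
    (fun i => {x | ∀ j : Fin h, Pt (a + 1) a i.val j.val (M x (c j))}.ncard)
    (fun i => {x | ∀ j : Fin h, Pt a a i.val j.val (M x (c j))}.ncard)
    {x | ∀ j : Fin h, Pt (a + 1) a a j.val (M x (c j))}.ncard
    {x | ∀ j : Fin h, Pt (a + 1) a (a + 1) j.val (M x (c j))}.ncard
    {x | ∀ j : Fin h, Pt a a a j.val (M x (c j))}.ncard
    rfl ?_ rfl ?_ ?_ ?_
  · rw [card_T a ha, show h - 1 - a + 1 = h - a by omega] at h2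
    exact h2
  · intro i hi
    have hi' : a < i.val := by simpa using hi
    congr 1
    ext x
    simp only [Set.mem_ofPred_eq]
    refine forall_congr' fun j => ?_
    unfold Pt
    split_ifs <;> first | rfl | omega
  · intro i hi
    have hi' : a < i.val := by simpa using hi
    congr 1
    ext x
    simp only [Set.mem_ofPred_eq]
    refine forall_congr' fun j => ?_
    unfold Pt
    split_ifs <;> first | rfl | omega
  · rw [← Set.ncard_union_eq]
    · refine Set.ncard_le_ncard ?_ (Set.toFinite _)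
      intro x hx
      rw [Set.mem_union] at hx
      simp only [Set.mem_ofPred_eq] at hx ⊢
      intro j
      rcases hx with hx | hx
      · have h3 := hx j
        unfold Pt at h3 ⊢
        split_ifs at h3 ⊢ <;> first | trivial | omega
      · have h3 := hx j
        unfold Pt at h3 ⊢
        split_ifs at h3 ⊢ <;> first | trivial | omega
    · rw [Set.disjoint_left]
      intro x hx hx'
      simp only [Set.mem_ofPred_eq] at hx hx'
      have h3 := hx ⟨a - 1, by omega⟩
      have h4 := hx' ⟨a - 1, by omega⟩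
      unfold Pt at h3 h4
      simp only at h3 h4
      split_ifs at h3 h4 <;> omega
  · intro i hi
    have hi' : i.val < a := by
      rw [Finset.mem_insert, not_or] at hi
      have h3 : i.val ≠ a := fun h => hi.1 (Fin.ext h)
      have h4 : ¬ a < i.val := by simpa using hi.2
      omega
    refine Set.ncard_le_ncard ?_ (Set.toFinite _)
    intro x hx
    simp only [Set.mem_ofPred_eq] at hx ⊢
    intro j
    have h3 := hx j
    unfold Pt at h3 ⊢
    split_ifs at h3 ⊢ <;> first | trivial | omega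

theorem col_step (a : ℕ) (ha : a < h) :
    WW h (a + 1) (a + 1) M * (h - a) ^ (h - a) ≤
      (h - 1 - a) ^ (h - 1 - a) * WW h (a + 1) a M := by
  unfold WW
  rw [W_rows, W_rows, Finset.sum_mul, Finset.mul_sum]
  refine Finset.sum_le_sum fun r _ => ?_
  have h2 := step (⟨a, ha⟩ : Fin h) (univ.filter fun i : Fin h => a < i.val) (by simp)
    (fun j => {y | ∀ i : Fin h, Pt (a + 1) (a + 1) i.val j.val (M (r i) y)}.ncard)
    (fun j => {y | ∀ i : Fin h, Pt (a + 1) a i.val j.val (M (r i) y)}.ncard)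
    {y | ∀ i : Fin h, Pt (a + 1) (a + 1) i.val a (M (r i) y)}.ncard
    {y | ∀ i : Fin h, Pt (a + 1) (a + 1) i.val (a + 1) (M (r i) y)}.ncard
    {y | ∀ i : Fin h, Pt (a + 1) a i.val a (M (r i) y)}.ncard
    rfl ?_ rfl ?_ ?_ ?_
  · rw [card_T a ha, show h - 1 - a + 1 = h - a by omega] at h2
    exact h2
  · intro j hj
    have hj' : a < j.val := by simpa using hj
    congr 1
    ext y
    simp only [Set.mem_ofPred_eq]
    refine forall_congr' fun i => ?_
    unfold Pt
    split_ifs <;> first | rfl | omega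
  · intro j hj
    have hj' : a < j.val := by simpa using hj
    congr 1
    ext y
    simp only [Set.mem_ofPred_eq]
    refine forall_congr' fun i => ?_
    unfold Pt
    split_ifs <;> first | rfl | omega
  · rw [← Set.ncard_union_eq]
    · refine Set.ncard_le_ncard ?_ (Set.toFinite _)
      intro y hy
      rw [Set.mem_union] at hy
      simp only [Set.mem_ofPred_eq] at hy ⊢
      intro i
      rcases hy with hy | hy
      · have h3 := hy i
        unfold Pt at h3 ⊢
        split_ifs at h3 ⊢ <;> first | trivial | omega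
      · have h3 := hy i
        unfold Pt at h3 ⊢
        split_ifs at h3 ⊢ <;> first | trivial | omega
    · rw [Set.disjoint_left]
      intro y hy hy'
      simp only [Set.mem_ofPred_eq] at hy hy'
      have h3 := hy ⟨a, ha⟩
      have h4 := hy' ⟨a, ha⟩
      unfold Pt at h3 h4
      simp only at h3 h4
      split_ifs at h3 h4 <;> first | omega | simp_all
  · intro j hj
    have hj' : j.val < a := by
      rw [Finset.mem_insert, not_or] at hj
      have h3 : j.val ≠ a := fun h => hj.1 (Fin.ext h)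
      have h4 : ¬ a < j.val := by simpa using hj.2
      omega
    refine Set.ncard_le_ncard ?_ (Set.toFinite _)
    intro y hy
    simp only [Set.mem_ofPred_eq] at hy ⊢
    intro i
    have h3 := hy i
    unfold Pt at h3 ⊢
    split_ifs at h3 ⊢ <;> first | trivial | omega

theorem WW_le (a : ℕ) (ha : a ≤ h) :
    WW h a a M * (h ^ h) ^ 2 ≤ ((h - a) ^ (h - a)) ^ 2 * n ^ (2 * h) := by
  induction a with
  | zero => rw [WW_zero, Nat.sub_zero, mul_comm]
  | succ a ih =>
    have ih := ih (by omega)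
    have h1 := row_step M a (by omega : a < h)
    have h2 := col_step M a (by omega : a < h)
    have h3 : h - (a + 1) = h - 1 - a := by omega
    rw [h3]
    set u := (h - a) ^ (h - a) with hu
    set v := (h - 1 - a) ^ (h - 1 - a) with hv
    have hu0 : 0 < u := Nat.pow_pos (by omega)
    have h4 : (WW h (a + 1) (a + 1) M * (h ^ h) ^ 2) * u ^ 2 ≤ (v ^ 2 * n ^ (2 * h)) * u ^ 2 := by
      calc (WW h (a + 1) (a + 1) M * (h ^ h) ^ 2) * u ^ 2
          = (WW h (a + 1) (a + 1) M * u) * (u * (h ^ h) ^ 2) := by ring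
        _ ≤ (v * WW h (a + 1) a M) * (u * (h ^ h) ^ 2) := Nat.mul_le_mul_right _ h2
        _ = (WW h (a + 1) a M * u) * (v * (h ^ h) ^ 2) := by ring
        _ ≤ (v * WW h a a M) * (v * (h ^ h) ^ 2) := Nat.mul_le_mul_right _ h1
        _ = v ^ 2 * (WW h a a M * (h ^ h) ^ 2) := by ring
        _ ≤ v ^ 2 * (u ^ 2 * n ^ (2 * h)) := Nat.mul_le_mul_left _ ih
        _ = (v ^ 2 * n ^ (2 * h)) * u ^ 2 := by ring
    exact Nat.le_of_mul_le_mul_right h4 (by positivity)

/-- The upper bound. -/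
theorem copies_le : copies (fourMat h) M * h ^ (2 * h) ≤ n ^ (2 * h) := by
  have h1 := WW_le M h le_rfl
  rw [Nat.sub_self, pow_zero, one_pow, one_mul, ← pow_mul, mul_comm h 2] at h1
  refine le_trans (Nat.mul_le_mul_right _ ?_) h1
  unfold copies WW W
  let φ : {p : (Fin h ↪o Fin n) × (Fin h ↪o Fin n) // ∀ a b, M (p.1 a) (p.2 b) = fourMat h a b} →
      {p : (Fin h → Fin n) × (Fin h → Fin n) // ∀ i j, Pt h h i.val j.val (M (p.1 i) (p.2 j))} :=
    fun p => ⟨(p.1.1, p.1.2), fun i j => by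
      have h2 := p.2 i j
      simp only at h2 ⊢
      rw [h2]
      have hi := i.2
      unfold Pt fourMat
      simp only [Matrix.of_apply]
      split_ifs <;> first | rfl | omega⟩
  refine Nat.card_le_card_of_injective φ ?_
  intro p q hpq
  have h3 := congrArg Subtype.val hpq
  simp only [φ, Prod.mk.injEq] at h3
  apply Subtype.ext
  apply Prod.ext
  · exact DFunLike.coe_injective h3.1
  · exact DFunLike.coe_injective h3.2

end main

/-- the blow-up -/
theorem le_copies {h n : ℕ} (H : Matrix (Fin h) (Fin h) ℕ) (hh : 1 ≤ h) (m : ℕ) (hmn : h * m ≤ n) :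
    ∃ M : Matrix (Fin n) (Fin n) ℕ, m ^ (2 * h) ≤ copies H M := by
  rcases Nat.eq_zero_or_pos m with rfl | hm
  · exact ⟨0, by rw [zero_pow (by omega)]; exact Nat.zero_le _⟩
  let cls : Fin n → Fin h := fun x => ⟨min (x.val / m) (h - 1), by omega⟩
  have hlt : ∀ (a : Fin h) (u : Fin m), a.val * m + u.val < n := by
    intro a u
    have h1 : (a.val + 1) * m ≤ h * m := Nat.mul_le_mul_right m a.2
    have h2 := u.2
    rw [add_mul, one_mul] at h1
    omega
  let em : (Fin h → Fin m) → (Fin h ↪o Fin n) := fun u =>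
    OrderEmbedding.ofStrictMono (fun a => ⟨a.val * m + (u a).val, hlt a (u a)⟩) (by
      intro a b hab
      rw [Fin.lt_def] at hab ⊢
      have h1 : (a.val + 1) * m ≤ b.val * m := Nat.mul_le_mul_right m hab
      have h2 := (u a).2
      rw [add_mul, one_mul] at h1
      simp only
      omega)
  have hcls : ∀ (u : Fin h → Fin m) (a : Fin h), cls (em u a) = a := by
    intro u a
    apply Fin.ext
    show min ((a.val * m + (u a).val) / m) (h - 1) = a.val
    have h1 : (a.val * m + (u a).val) / m = a.val := by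
      rw [mul_comm, Nat.mul_add_div hm, Nat.div_eq_of_lt (u a).2, add_zero]
    rw [h1]
    have := a.2
    omega
  refine ⟨Matrix.of fun x y => H (cls x) (cls y), ?_⟩
  have hinj : ∀ u u' : Fin h → Fin m, em u = em u' → u = u' := by
    intro u u' huu
    funext a
    have h1 := congrArg Fin.val (DFunLike.congr_fun huu a)
    have h2 : a.val * m + (u a).val = a.val * m + (u' a).val := h1
    apply Fin.ext
    omega
  let ψ : (Fin h → Fin m) × (Fin h → Fin m) →
      {p : (Fin h ↪o Fin n) × (Fin h ↪o Fin n) //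
        ∀ a b, (Matrix.of fun x y => H (cls x) (cls y)) (p.1 a) (p.2 b) = H a b} :=
    fun q => ⟨(em q.1, em q.2), fun a b => by
      show H (cls (em q.1 a)) (cls (em q.2 b)) = H a b
      rw [hcls, hcls]⟩
  have h1 : Nat.card ((Fin h → Fin m) × (Fin h → Fin m)) = m ^ (2 * h) := by
    rw [Nat.card_prod, Nat.card_fun, Nat.card_fin, Nat.card_fin, two_mul, pow_add]
  rw [← h1]
  refine Nat.card_le_card_of_injective ψ ?_
  intro p q hpq
  have h3 := congrArg Subtype.val hpq
  simp only [ψ, Prod.mk.injEq] at h3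
  exact Prod.ext (hinj _ _ h3.1) (hinj _ _ h3.2)

/-- The maximal density tends to `(h!)² / h^(2h)` if the copies are at most `(n/h)^(2h)`. -/
theorem isMinimizer_of_le {h : ℕ} (hh : 1 ≤ h) (H : Matrix (Fin h) (Fin h) ℕ)
    (hle : ∀ (n : ℕ) (M : Matrix (Fin n) (Fin n) ℕ), copies H M * h ^ (2 * h) ≤ n ^ (2 * h)) :
    IsMinimizer H := by
  unfold IsMinimizer
  set K : ℝ := (h.factorial : ℝ) ^ 2 / (h : ℝ) ^ (2 * h) with hK
  have hh0 : (0 : ℝ) < h := by exact_mod_cast hh
  have hK0 : 0 < K := by positivity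
  -- the quotient
  have hx : Tendsto (fun n : ℕ => ((n : ℝ) + (1 - h)) / n) atTop (𝓝 1) := by
    have h1 : Tendsto (fun n : ℕ => (1 : ℝ) + (1 - h) / n) atTop (𝓝 (1 + 0)) :=
      tendsto_const_nhds.add (tendsto_const_div_atTop_nhds_zero_nat _)
    rw [add_zero] at h1
    refine h1.congr' ?_
    filter_upwards [eventually_gt_atTop 0] with n hn
    have : (0 : ℝ) < n := by exact_mod_cast hn
    field_simp
  have hlow : Tendsto (fun n : ℕ => K * (((n : ℝ) + (1 - h)) / n) ^ (2 * h)) atTop (𝓝 K) := by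
    have := (hx.pow (2 * h)).const_mul K
    rwa [one_pow, mul_one] at this
  have hup : Tendsto (fun n : ℕ => K * ((((n : ℝ) + (1 - h)) / n) ^ (2 * h))⁻¹) atTop (𝓝 K) := by
    have := ((hx.pow (2 * h)).inv₀ (by simp)).const_mul K
    rwa [one_pow, inv_one, mul_one] at this
  have hup2 : ∀ n : ℕ, h ≤ n → ∀ M : Matrix (Fin n) (Fin n) ℕ,
      (copies H M : ℝ) / (n.choose h : ℝ) ^ 2 ≤
        K * ((((n : ℝ) + (1 - h)) / n) ^ (2 * h))⁻¹ := by
    intro n hn M
    have hn0 : (0 : ℝ) < n := by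
      have : 0 < n := by omega
      exact_mod_cast this
    have hn1 : (0 : ℝ) < (n : ℝ) + (1 - h) := by
      have : (h : ℝ) ≤ n := by exact_mod_cast hn
      linarith
    have hc0 : (0 : ℝ) < (n.choose h : ℝ) := by exact_mod_cast Nat.choose_pos hn
    have h1 : (copies H M : ℝ) * (h : ℝ) ^ (2 * h) ≤ (n : ℝ) ^ (2 * h) := by
      exact_mod_cast hle n M
    have h2 : ((n : ℝ) + (1 - h)) ^ h ≤ (h.factorial : ℝ) * (n.choose h : ℝ) := by
      have h3 := Nat.pow_sub_le_descFactorial n h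
      rw [Nat.descFactorial_eq_factorial_mul_choose] at h3
      have h4 : ((n + 1 - h : ℕ) : ℝ) = (n : ℝ) + (1 - h) := by
        rw [Nat.cast_sub (by omega)]
        push_cast
        ring
      rw [← h4]
      exact_mod_cast h3
    have h3 : ((n : ℝ) + (1 - h)) ^ (2 * h) ≤ (h.factorial : ℝ) ^ 2 * (n.choose h : ℝ) ^ 2 := by
      calc ((n : ℝ) + (1 - h)) ^ (2 * h) = (((n : ℝ) + (1 - h)) ^ h) ^ 2 := by
            rw [← pow_mul, mul_comm h 2]
        _ ≤ ((h.factorial : ℝ) * (n.choose h : ℝ)) ^ 2 := by gcongr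
        _ = (h.factorial : ℝ) ^ 2 * (n.choose h : ℝ) ^ 2 := by ring
    rw [div_pow, inv_div, hK, div_mul_div_comm, div_le_div_iff₀ (by positivity) (by positivity)]
    calc (copies H M : ℝ) * ((h : ℝ) ^ (2 * h) * ((n : ℝ) + (1 - h)) ^ (2 * h))
        = ((copies H M : ℝ) * (h : ℝ) ^ (2 * h)) * ((n : ℝ) + (1 - h)) ^ (2 * h) := by ring
      _ ≤ (n : ℝ) ^ (2 * h) * ((h.factorial : ℝ) ^ 2 * (n.choose h : ℝ) ^ 2) := by gcongr
      _ = (h.factorial : ℝ) ^ 2 * (n : ℝ) ^ (2 * h) * (n.choose h : ℝ) ^ 2 := by ring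
  refine tendsto_of_tendsto_of_tendsto_of_le_of_le' hlow hup ?_ ?_
  · filter_upwards [eventually_ge_atTop h] with n hn
    have hn0 : (0 : ℝ) < n := by
      have : 0 < n := by omega
      exact_mod_cast this
    have hn1 : (0 : ℝ) < (n : ℝ) + (1 - h) := by
      have : (h : ℝ) ≤ n := by exact_mod_cast hn
      linarith
    have hc0 : (0 : ℝ) < (n.choose h : ℝ) := by exact_mod_cast Nat.choose_pos hn
    obtain ⟨M, hM⟩ := le_copies (n := n) H hh (n / h) (Nat.mul_div_le n h)
    have hbdd : BddAbove (Set.range fun M : Matrix (Fin n) (Fin n) ℕ =>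
        (copies H M : ℝ) / (n.choose h : ℝ) ^ 2) := by
      refine ⟨K * ((((n : ℝ) + (1 - h)) / n) ^ (2 * h))⁻¹, ?_⟩
      rintro _ ⟨M, rfl⟩
      exact hup2 n hn M
    refine le_trans ?_ (le_ciSup hbdd M)
    have h1 : (((n / h : ℕ) : ℝ)) ^ (2 * h) ≤ copies H M := by exact_mod_cast hM
    have h2 : (n : ℝ) + (1 - h) ≤ h * ((n / h : ℕ) : ℝ) := by
      have h3 : n + 1 ≤ h * (n / h) + h := by
        have h4 := Nat.div_add_mod n h
        have h5 := Nat.mod_lt n hh
        omega
      have h4 : (n : ℝ) + 1 ≤ h * ((n / h : ℕ) : ℝ) + h := by exact_mod_cast h3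
      linarith
    have h3 : (h.factorial : ℝ) * (n.choose h : ℝ) ≤ (n : ℝ) ^ h := by
      have h4 := Nat.descFactorial_le_pow n h
      rw [Nat.descFactorial_eq_factorial_mul_choose] at h4
      exact_mod_cast h4
    have h4 : (h.factorial : ℝ) ^ 2 * (n.choose h : ℝ) ^ 2 ≤ (n : ℝ) ^ (2 * h) := by
      calc (h.factorial : ℝ) ^ 2 * (n.choose h : ℝ) ^ 2
          = ((h.factorial : ℝ) * (n.choose h : ℝ)) ^ 2 := by ring
        _ ≤ ((n : ℝ) ^ h) ^ 2 := by gcongr
        _ = (n : ℝ) ^ (2 * h) := by rw [← pow_mul, mul_comm h 2]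
    have h5 : ((n : ℝ) + (1 - h)) ^ (2 * h) ≤ (h : ℝ) ^ (2 * h) * (copies H M : ℝ) := by
      calc ((n : ℝ) + (1 - h)) ^ (2 * h) ≤ (h * ((n / h : ℕ) : ℝ)) ^ (2 * h) := by gcongr
        _ = (h : ℝ) ^ (2 * h) * (((n / h : ℕ) : ℝ)) ^ (2 * h) := by rw [mul_pow]
        _ ≤ (h : ℝ) ^ (2 * h) * (copies H M : ℝ) := by gcongr
    rw [div_pow, hK, div_mul_div_comm, div_le_div_iff₀ (by positivity) (by positivity)]
    calc (h.factorial : ℝ) ^ 2 * ((n : ℝ) + (1 - h)) ^ (2 * h) * (n.choose h : ℝ) ^ 2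
        = ((h.factorial : ℝ) ^ 2 * (n.choose h : ℝ) ^ 2) * ((n : ℝ) + (1 - h)) ^ (2 * h) := by ring
      _ ≤ (n : ℝ) ^ (2 * h) * ((h : ℝ) ^ (2 * h) * (copies H M : ℝ)) := by gcongr
      _ = (copies H M : ℝ) * ((h : ℝ) ^ (2 * h) * (n : ℝ) ^ (2 * h)) := by ring
  · filter_upwards [eventually_ge_atTop h] with n hn
    have : Nonempty (Matrix (Fin n) (Fin n) ℕ) := ⟨0⟩
    exact ciSup_le fun M => hup2 n hn M

theorem fourMat_lt {h : ℕ} (i j : Fin h) : fourMat h i j < 4 := by
  unfold fourMat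
  simp only [Matrix.of_apply]
  split_ifs <;> omega

end Pool.Agent.Lib.MP059e53
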