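import Pool.Agent.Lib.MP_059e53_co.Count

/-!
# MP_059e53_co: the limit of the maximal density of a permutation matrix of order three
-/

set_option autoImplicit false

namespace Pool.Agent.Lib.MP059e53

open Finset Filter

/-- the blow-up of `H` with blocks of size `k`. -/
def blow (H : Fin 3 → Fin 3 → ℕ) (n k : ℕ) : Fin n → Fin n → ℕ := fun i j =>
  H ⟨min (i.1 / k) 2, by omega⟩ ⟨min (j.1 / k) 2, by omega⟩

/-- the embedding which takes the element `f a` of the block `a`. -/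
def emb3 {n k : ℕ} (hk : 3 * k ≤ n) (f : Fin 3 → Fin k) : Fin 3 ↪o Fin n :=
  OrderEmbedding.ofStrictMono (fun a => ⟨a.1 * k + (f a).1, by
    have h1 := (f a).2
    have h2 : a.1 * k ≤ 2 * k := Nat.mul_le_mul_right k (by omega)
    omega⟩) (by
    intro a b hab
    have h1 := (f a).2
    have h2 : (a.1 + 1) * k ≤ b.1 * k := Nat.mul_le_mul_right k hab
    rw [Fin.lt_def]
    show a.1 * k + (f a).1 < b.1 * k + (f b).1
    rw [Nat.add_mul, one_mul] at h2
    omega)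

theorem emb3_div {n k : ℕ} (hk : 3 * k ≤ n) (f : Fin 3 → Fin k) (a : Fin 3) :
    (⟨min ((emb3 hk f a).1 / k) 2, by omega⟩ : Fin 3) = a := by
  have h1 := (f a).2
  have hk0 : 0 < k := lt_of_le_of_lt (Nat.zero_le _) h1
  have h2 : (emb3 hk f a).1 = a.1 * k + (f a).1 := rfl
  have h3 : (a.1 * k + (f a).1) / k = a.1 := by
    rw [Nat.mul_comm, Nat.mul_add_div hk0, Nat.div_eq_of_lt h1, add_zero]
  apply Fin.ext
  show min ((emb3 hk f a).1 / k) 2 = a.1
  rw [h2, h3]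
  have := a.2
  omega

theorem blow_cnt (H : Fin 3 → Fin 3 → ℕ) {n k : ℕ} (hk : 3 * k ≤ n) :
    k ^ 6 ≤ cnt H (blow H n k) := by
  let F : (Fin 3 → Fin k) × (Fin 3 → Fin k) →
      {p : (Fin 3 ↪o Fin n) × (Fin 3 ↪o Fin n) // ∀ a b, blow H n k (p.1 a) (p.2 b) = H a b} :=
    fun q => ⟨(emb3 hk q.1, emb3 hk q.2), fun a b => by
      show H _ _ = H a b
      rw [emb3_div, emb3_div]⟩
  have hinj : ∀ f g : Fin 3 → Fin k, emb3 hk f = emb3 hk g → f = g := by
    intro f g h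
    funext a
    have h1 := congrArg (fun e : Fin 3 ↪o Fin n => (e a).1) h
    have h2 : a.1 * k + (f a).1 = a.1 * k + (g a).1 := h1
    exact Fin.ext (by omega)
  have hF : Function.Injective F := by
    rintro ⟨f, g⟩ ⟨f', g'⟩ h
    have h1 := congrArg Subtype.val h
    have h2 := congrArg Prod.fst h1
    have h3 := congrArg Prod.snd h1
    rw [hinj f f' h2, hinj g g' h3]
  have h1 := Fintype.card_le_of_injective F hF
  have h2 : Fintype.card ((Fin 3 → Fin k) × (Fin 3 → Fin k)) = k ^ 6 := by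
    rw [Fintype.card_prod, Fintype.card_fun, Fintype.card_fin, Fintype.card_fin]
    ring
  rw [h2] at h1
  exact h1

theorem dens_le (π : Equiv.Perm (Fin 3)) (n : ℕ) (M : Fin n → Fin n → ℕ) :
    dens (pm π) M ≤ (n : ℝ) ^ 6 / 729 / (n.choose 3 : ℝ) ^ 2 :=
  div_le_div_of_nonneg_right (cnt_le M π) (sq_nonneg _)

theorem bdd (π : Equiv.Perm (Fin 3)) (n : ℕ) :
    BddAbove (Set.range fun M : Fin n → Fin n → ℕ => dens (pm π) M) :=
  ⟨_, by
    rintro _ ⟨M, rfl⟩
    exact dens_le π n M⟩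

theorem fn_le (π : Equiv.Perm (Fin 3)) (n : ℕ) :
    fn (pm π) n ≤ (n : ℝ) ^ 6 / 729 / (n.choose 3 : ℝ) ^ 2 :=
  ciSup_le fun M => dens_le π n M

theorem le_fn (π : Equiv.Perm (Fin 3)) (n : ℕ) :
    ((n / 3 : ℕ) : ℝ) ^ 6 / (n.choose 3 : ℝ) ^ 2 ≤ fn (pm π) n := by
  have h1 := blow_cnt (pm π) (n := n) (k := n / 3) (by omega)
  have h2 : ((n / 3 : ℕ) : ℝ) ^ 6 ≤ (cnt (pm π) (blow (pm π) n (n / 3)) : ℝ) := by
    exact_mod_cast h1
  exact (div_le_div_of_nonneg_right h2 (sq_nonneg _)).trans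
    (le_ciSup (bdd π n) (blow (pm π) n (n / 3)))

/-- `C(n, 3) / n³ → 1/6`. -/
theorem choose_lim : Tendsto (fun n : ℕ => (n.choose 3 : ℝ) / (n : ℝ) ^ 3) atTop (nhds (1 / 6)) := by
  have h0 : Tendsto (fun n : ℕ => (1 : ℝ) / n) atTop (nhds 0) := tendsto_one_div_atTop_nhds_zero_nat
  have h1 : Tendsto (fun n : ℕ => (1 / 6 : ℝ) * (1 - 1 / n) * (1 - 2 * (1 / n))) atTop
      (nhds (1 / 6 * (1 - 0) * (1 - 2 * 0))) :=
    ((tendsto_const_nhds.mul (tendsto_const_nhds.sub h0))).mul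
      (tendsto_const_nhds.sub (tendsto_const_nhds.mul h0))
  have h2 : (1 / 6 * (1 - 0) * (1 - 2 * 0) : ℝ) = 1 / 6 := by norm_num
  rw [h2] at h1
  refine h1.congr' ?_
  filter_upwards [eventually_ge_atTop 3] with n hn
  have hn0 : (n : ℝ) ≠ 0 := by
    have : 0 < n := by omega
    positivity
  have h3 : (n.choose 3 : ℝ) = (n : ℝ) * (n - 1) * (n - 2) / 6 := by
    have h4 := Nat.descFactorial_eq_factorial_mul_choose n 3
    have h5 : n.descFactorial 3 = n * (n - 1) * (n - 2) := by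
      simp only [Nat.descFactorial]
      ring_nf
      rw [Nat.sub_zero]
    rw [h5] at h4
    have h6 : ((n * (n - 1) * (n - 2) : ℕ) : ℝ) = ((Nat.factorial 3 * n.choose 3 : ℕ) : ℝ) := by
      rw [h4]
    push_cast [Nat.cast_sub (show 1 ≤ n by omega), Nat.cast_sub (show 2 ≤ n by omega)] at h6
    have h7 : ((Nat.factorial 3 : ℕ) : ℝ) = 6 := by norm_num [Nat.factorial]
    rw [h7] at h6
    linarith
  rw [h3]
  field_simp

theorem div3_lim : Tendsto (fun n : ℕ => ((n / 3 : ℕ) : ℝ) / (n : ℝ)) atTop (nhds (1 / 3)) := by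
  have h0 : Tendsto (fun n : ℕ => (1 : ℝ) / n) atTop (nhds 0) := tendsto_one_div_atTop_nhds_zero_nat
  have h1 : Tendsto (fun n : ℕ => (1 / 3 : ℝ) - 1 / n) atTop (nhds (1 / 3 - 0)) :=
    tendsto_const_nhds.sub h0
  rw [sub_zero] at h1
  refine tendsto_of_tendsto_of_tendsto_of_le_of_le' h1 tendsto_const_nhds ?_ ?_
  · filter_upwards [eventually_ge_atTop 1] with n hn
    have hn0 : (0 : ℝ) < n := by exact_mod_cast hn
    have h2 : n ≤ 3 * (n / 3) + 2 := by omega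
    have h3 : (n : ℝ) ≤ 3 * ((n / 3 : ℕ) : ℝ) + 2 := by exact_mod_cast h2
    rw [le_div_iff₀ hn0, sub_mul, one_div_mul_cancel hn0.ne']
    linarith
  · filter_upwards [eventually_ge_atTop 1] with n hn
    have hn0 : (0 : ℝ) < n := by exact_mod_cast hn
    have h2 : 3 * (n / 3) ≤ n := by omega
    have h3 : 3 * ((n / 3 : ℕ) : ℝ) ≤ (n : ℝ) := by exact_mod_cast h2
    rw [div_le_iff₀ hn0]
    linarith

/-- every permutation matrix of order three is a minimizer. -/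
theorem main (π : Equiv.Perm (Fin 3)) : IsMinimizer (pm π) := by
  unfold IsMinimizer
  have hv : ((Nat.factorial 3 : ℕ) : ℝ) ^ 2 / ((3 : ℕ) : ℝ) ^ (2 * 3) = 4 / 81 := by
    norm_num [Nat.factorial]
  rw [hv]
  have hc := choose_lim
  have hc2 : Tendsto (fun n : ℕ => ((n.choose 3 : ℝ) / (n : ℝ) ^ 3) ^ 2) atTop
      (nhds ((1 / 6) ^ 2)) := hc.pow 2
  have hup : Tendsto (fun n : ℕ => (1 / 729 : ℝ) / ((n.choose 3 : ℝ) / (n : ℝ) ^ 3) ^ 2) atTop
      (nhds ((1 / 729) / (1 / 6) ^ 2)) := tendsto_const_nhds.div hc2 (by norm_num)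
  have hlo : Tendsto (fun n : ℕ => (((n / 3 : ℕ) : ℝ) / (n : ℝ)) ^ 6 /
      ((n.choose 3 : ℝ) / (n : ℝ) ^ 3) ^ 2) atTop (nhds ((1 / 3) ^ 6 / (1 / 6) ^ 2)) :=
    (div3_lim.pow 6).div hc2 (by norm_num)
  have e1 : ((1 / 729) / (1 / 6) ^ 2 : ℝ) = 4 / 81 := by norm_num
  have e2 : ((1 / 3) ^ 6 / (1 / 6) ^ 2 : ℝ) = 4 / 81 := by norm_num
  rw [e1] at hup
  rw [e2] at hlo
  refine tendsto_of_tendsto_of_tendsto_of_le_of_le' hlo hup ?_ ?_
  · filter_upwards [eventually_ge_atTop 3] with n hn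
    have hn0 : (n : ℝ) ≠ 0 := by
      have : 0 < n := by omega
      positivity
    refine le_trans (le_of_eq ?_) (le_fn π n)
    have hcc : (n.choose 3 : ℝ) ≠ 0 := by
      have := Nat.choose_pos hn
      positivity
    field_simp
  · filter_upwards [eventually_ge_atTop 3] with n hn
    have hn0 : (n : ℝ) ≠ 0 := by
      have : 0 < n := by omega
      positivity
    refine (fn_le π n).trans (le_of_eq ?_)
    have hcc : (n.choose 3 : ℝ) ≠ 0 := by
      have := Nat.choose_pos hn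
      positivity
    field_simp

end Pool.Agent.Lib.MP059e53
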