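import Pool.Agent.Lib.MP_059e53_co.Two

/-!
# MP_059e53_co: the number of induced matchings of size three in an `n × n` matrix
-/

set_option autoImplicit false

namespace Pool.Agent.Lib.MP059e53

open Finset

/-- the inequality for one column, in normalized form. -/
theorem key (w h V q e : ℝ) (hw0 : 0 ≤ w) (hw1 : w ≤ 1) (hV0 : 0 ≤ V)
    (hV : h ^ 2 ≤ w * (1 - w) * V) (hq : q ≤ V) :
    (1 - w) * w ^ 2 * (4 / 3 - 3 * e ^ 2) + w ^ 2 * q - 2 * w * (4 / 3 + e * (3 * w - 2)) * h +
      4 * w * h ^ 2 + 16 / 9 * (h - V) ≤ 16 / 81 := by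
  rcases hw0.eq_or_lt with h0 | h0
  · subst h0
    have h1 : h = 0 := by
      have h2 : h ^ 2 ≤ 0 := by simpa using hV
      have h3 : h ^ 2 = 0 := le_antisymm h2 (sq_nonneg h)
      exact pow_eq_zero_iff (two_ne_zero) |>.1 h3
    subst h1
    nlinarith
  rcases hw1.eq_or_lt with h1 | h1
  · subst h1
    have h1 : h = 0 := by
      have h2 : h ^ 2 ≤ 0 := by simpa using hV
      have h3 : h ^ 2 = 0 := le_antisymm h2 (sq_nonneg h)
      exact pow_eq_zero_iff (two_ne_zero) |>.1 h3
    subst h1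
    nlinarith
  have h1' : 0 < 1 - w := by linarith
  have hw3 : 0 < 3 * w + 1 := by linarith
  have hpos : 0 < w * (1 - w) * (3 * w + 1) := by positivity
  have h169 : 0 ≤ 16 / 9 - w ^ 2 := by nlinarith
  have hid : w * (1 - w) * (3 * w + 1) * (16 / 81 - ((1 - w) * w ^ 2 * (4 / 3 - 3 * e ^ 2) +
      w ^ 2 * q - 2 * w * (4 / 3 + e * (3 * w - 2)) * h + 4 * w * h ^ 2 + 16 / 9 * (h - V))) =
      4 / 9 * (w * (1 - w)) * ((3 * w + 1) * (w - 2 / 3) + 3 * h) ^ 2 +
      3 * w * (3 * w + 1) * ((1 - w) * w * e + (w - 2 / 3) * h) ^ 2 +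
      (16 / 9 - w ^ 2 - 2 * w ^ 3 + 3 * w ^ 4) * h ^ 2 +
      (16 / 9 - w ^ 2) * (3 * w + 1) * (w * (1 - w) * V - h ^ 2) +
      w * (1 - w) * (3 * w + 1) * (w ^ 2 * (V - q)) := by
    ring
  have hR : 0 ≤ 16 / 9 - w ^ 2 - 2 * w ^ 3 + 3 * w ^ 4 := by
    nlinarith [sq_nonneg (w ^ 2 - w), sq_nonneg (w - 1), mul_pos h0 h1', sq_nonneg w,
      sq_nonneg (3 * w ^ 2 - 2 * w), mul_pos (mul_pos h0 h0) h1']
  have hnn : 0 ≤ w * (1 - w) * (3 * w + 1) * (16 / 81 - ((1 - w) * w ^ 2 * (4 / 3 - 3 * e ^ 2) +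
      w ^ 2 * q - 2 * w * (4 / 3 + e * (3 * w - 2)) * h + 4 * w * h ^ 2 + 16 / 9 * (h - V))) := by
    rw [hid]
    have t1 : 0 ≤ 4 / 9 * (w * (1 - w)) * ((3 * w + 1) * (w - 2 / 3) + 3 * h) ^ 2 := by positivity
    have t2 : 0 ≤ 3 * w * (3 * w + 1) * ((1 - w) * w * e + (w - 2 / 3) * h) ^ 2 := by positivity
    have t3 : 0 ≤ (16 / 9 - w ^ 2 - 2 * w ^ 3 + 3 * w ^ 4) * h ^ 2 := by positivity
    have t4 : 0 ≤ (16 / 9 - w ^ 2) * (3 * w + 1) * (w * (1 - w) * V - h ^ 2) :=
      mul_nonneg (mul_nonneg h169 hw3.le) (by linarith)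
    have t5 : 0 ≤ w * (1 - w) * (3 * w + 1) * (w ^ 2 * (V - q)) :=
      mul_nonneg hpos.le (mul_nonneg (sq_nonneg w) (by linarith))
    linarith
  have h5 := (mul_nonneg_iff_of_pos_left hpos).1 hnn
  linarith

variable {X Y : Type} [Fintype X] [Fintype Y] [DecidableEq X] [DecidableEq Y]

/-- the indicator of a relation. -/
def ind (R : X → Y → Prop) [∀ x s, Decidable (R x s)] : X → Y → ℝ := fun x s => if R x s then 1 else 0

omit [Fintype X] [Fintype Y] [DecidableEq X] [DecidableEq Y] in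
theorem ind_or (R : X → Y → Prop) [∀ x s, Decidable (R x s)] (x : X) (s : Y) :
    ind R x s = 0 ∨ ind R x s = 1 := by
  unfold ind
  split_ifs <;> simp

section three

variable (R : X → Y → Prop) [∀ x s, Decidable (R x s)]

/-- the rows outside the column `s`. -/
def Ac (s : Y) : Finset X := univ.filter fun y => ¬ R y s

/-- the columns outside the row `x`. -/
def Br (x : X) : Finset Y := univ.filter fun t => ¬ R x t

/-- the number of the (labelled) induced matchings of size three. -/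
def Q3 : ℝ := ∑ s : Y, ∑ x : X, ind R x s * Q2 (ind R) (Ac R s) (Br R x)

/-- the column sum. -/
def cs (s : Y) : ℝ := ∑ x, ind R x s

/-- the row sum. -/
def rs (x : X) : ℝ := ∑ s, ind R x s

omit [DecidableEq X] [DecidableEq Y] [Fintype Y] in
theorem card_Ac (s : Y) : ((Ac R s).card : ℝ) = Fintype.card X - cs R s := by
  have h : ((Ac R s).card : ℝ) = ∑ x : X, (1 - ind R x s) := by
    rw [Ac, Finset.card_filter]
    push_cast
    refine Finset.sum_congr rfl fun x _ => ?_
    unfold ind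
    split_ifs <;> simp_all
  rw [h, Finset.sum_sub_distrib, Finset.sum_const, nsmul_one, Finset.card_univ]
  rfl

omit [DecidableEq X] [DecidableEq Y] [Fintype X] in
theorem card_Br (x : X) : ((Br R x).card : ℝ) = Fintype.card Y - rs R x := by
  have h : ((Br R x).card : ℝ) = ∑ s : Y, (1 - ind R x s) := by
    rw [Br, Finset.card_filter]
    push_cast
    refine Finset.sum_congr rfl fun s _ => ?_
    unfold ind
    split_ifs <;> simp_all
  rw [h, Finset.sum_sub_distrib, Finset.sum_const, nsmul_one, Finset.card_univ]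
  rfl

omit [DecidableEq X] [DecidableEq Y] [Fintype Y] in
theorem sum_Ac (s : Y) (f : X → ℝ) : ∑ y ∈ Ac R s, f y = ∑ y, (1 - ind R y s) * f y := by
  rw [Ac, Finset.sum_filter]
  refine Finset.sum_congr rfl fun y _ => ?_
  unfold ind
  split_ifs <;> simp_all

omit [DecidableEq X] [DecidableEq Y] in
/-- the bound for one column. -/
theorem col (N : ℝ) (hX : (Fintype.card X : ℝ) = N) (hN : 0 < N) (s : Y) :
    (N - cs R s) ^ 2 * (∑ x, ind R x s * (N - rs R x) ^ 2) +
      4 * (N - cs R s) * (∑ x, ind R x s * (N - rs R x)) * (∑ y, (1 - ind R y s) * rs R y) +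
      16 / 9 * N ^ 5 * ((∑ x, ind R x s * (rs R x / N - (∑ y, rs R y) / N ^ 2)) / N -
        (∑ x, (rs R x / N - (∑ y, rs R y) / N ^ 2) ^ 2) / N) ≤ 16 / 81 * N ^ 5 := by
  set δ : ℝ := (∑ y, rs R y) / N ^ 2 with hδ
  let η : X → ℝ := fun x => rs R x / N - δ
  have hη : ∀ x, rs R x = N * (η x + δ) := by
    intro x
    show rs R x = N * (rs R x / N - δ + δ)
    field_simp
    ring
  have hηdef : ∀ x, rs R x / N - δ = η x := fun x => rfl
  simp only [hηdef]
  have hsumη : ∑ x, η x = 0 := by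
    have h1 : ∑ x, η x = (∑ x, rs R x) / N - N * δ := by
      show ∑ x, (rs R x / N - δ) = _
      rw [Finset.sum_sub_distrib, Finset.sum_const, nsmul_eq_mul, Finset.card_univ, hX,
        Finset.sum_div]
    rw [h1, hδ]
    field_simp
    ring
  set σ : ℝ := cs R s / N with hσ
  have hcs : cs R s = N * σ := by
    rw [hσ]
    field_simp
  set h : ℝ := (∑ x, ind R x s * η x) / N with hh
  set q : ℝ := (∑ x, ind R x s * η x ^ 2) / N with hq
  set V : ℝ := (∑ x, η x ^ 2) / N with hVd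
  have e1 : ∑ x, ind R x s * (N - rs R x) ^ 2 =
      N ^ 3 * (σ * (1 - δ) ^ 2 - 2 * (1 - δ) * h + q) := by
    have : ∀ x, ind R x s * (N - rs R x) ^ 2 = N ^ 2 * ((1 - δ) ^ 2 * ind R x s -
        2 * (1 - δ) * (ind R x s * η x) + ind R x s * η x ^ 2) := by
      intro x
      rw [hη]
      ring
    simp only [this]
    rw [← Finset.mul_sum, Finset.sum_add_distrib, Finset.sum_sub_distrib, ← Finset.mul_sum,
      ← Finset.mul_sum, hσ, hh, hq]
    show N ^ 2 * ((1 - δ) ^ 2 * cs R s - _ + _) = _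
    field_simp
  have e2 : ∑ x, ind R x s * (N - rs R x) = N ^ 2 * (σ * (1 - δ) - h) := by
    have : ∀ x, ind R x s * (N - rs R x) = N * ((1 - δ) * ind R x s - ind R x s * η x) := by
      intro x
      rw [hη]
      ring
    simp only [this]
    rw [← Finset.mul_sum, Finset.sum_sub_distrib, ← Finset.mul_sum, hσ, hh]
    show N * ((1 - δ) * cs R s - _) = _
    field_simp
  have e3 : ∑ y, (1 - ind R y s) * rs R y = N ^ 2 * ((1 - σ) * δ - h) := by
    have : ∀ x, (1 - ind R x s) * rs R x = N * (η x + δ - δ * ind R x s - ind R x s * η x) := by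
      intro x
      rw [hη]
      ring
    simp only [this]
    rw [← Finset.mul_sum, Finset.sum_sub_distrib, Finset.sum_sub_distrib, Finset.sum_add_distrib,
      hsumη, Finset.sum_const, nsmul_eq_mul, Finset.card_univ, hX, ← Finset.mul_sum, hσ, hh]
    show N * (0 + N * δ - δ * cs R s - _) = _
    field_simp
    ring
  have hind : ∀ x, ind R x s = 0 ∨ ind R x s = 1 := fun x => ind_or R x s
  have hσ0 : 0 ≤ σ := by
    rw [hσ]
    exact div_nonneg (Finset.sum_nonneg fun x _ => m_nonneg (ind_or R) x s) hN.le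
  have hσ1 : σ ≤ 1 := by
    rw [hσ, div_le_one hN, ← hX, ← Finset.card_univ, ← nsmul_one, ← Finset.sum_const]
    exact Finset.sum_le_sum fun x _ => m_le (ind_or R) x s
  have hV0 : 0 ≤ V := div_nonneg (Finset.sum_nonneg fun x _ => sq_nonneg _) hN.le
  have hqV : q ≤ V := by
    rw [hq, hVd]
    refine div_le_div_of_nonneg_right (Finset.sum_le_sum fun x _ => ?_) hN.le
    nlinarith [m_le (ind_or R) x s, m_nonneg (ind_or R) x s, sq_nonneg (η x)]
  -- Cauchy-Schwarz
  have hhV : h ^ 2 ≤ (1 - σ) * (1 - (1 - σ)) * V := by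
    have c1 : (∑ x, ind R x s * η x) ^ 2 ≤ (∑ x, ind R x s) * ∑ x, ind R x s * η x ^ 2 := by
      have := Finset.sum_mul_sq_le_sq_mul_sq univ (fun x => ind R x s) (fun x => ind R x s * η x)
      have e4 : ∀ x, ind R x s * (ind R x s * η x) = ind R x s * η x := by
        intro x
        rw [← mul_assoc, m_sq (ind_or R)]
      have e5 : ∀ x, ind R x s ^ 2 = ind R x s := by
        intro x
        rw [sq, m_sq (ind_or R)]
      have e6 : ∀ x, (ind R x s * η x) ^ 2 = ind R x s * η x ^ 2 := by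
        intro x
        rw [mul_pow, e5]
      simp only [e4, e5, e6] at this
      exact this
    have c2 : (∑ x, ind R x s * η x) ^ 2 ≤
        (∑ x, (1 - ind R x s)) * ∑ x, (1 - ind R x s) * η x ^ 2 := by
      have := Finset.sum_mul_sq_le_sq_mul_sq univ (fun x => 1 - ind R x s)
        (fun x => (1 - ind R x s) * η x)
      have e5 : ∀ x, (1 - ind R x s) ^ 2 = 1 - ind R x s := by
        intro x
        have := m_sq (ind_or R) x s
        nlinarith
      have e4 : ∀ x, (1 - ind R x s) * ((1 - ind R x s) * η x) = (1 - ind R x s) * η x := by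
        intro x
        rw [← mul_assoc, ← sq, e5]
      have e6 : ∀ x, ((1 - ind R x s) * η x) ^ 2 = (1 - ind R x s) * η x ^ 2 := by
        intro x
        rw [mul_pow, e5]
      simp only [e4, e5, e6] at this
      have e7 : ∑ x, (1 - ind R x s) * η x = -∑ x, ind R x s * η x := by
        have : ∀ x, (1 - ind R x s) * η x = η x - ind R x s * η x := fun x => by ring
        simp only [this]
        rw [Finset.sum_sub_distrib, hsumη, zero_sub]
      rw [e7, neg_sq] at this
      exact this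
    have c3 : ∑ x, ind R x s * η x = N * h := by
      rw [hh]
      field_simp
    have c4 : ∑ x, ind R x s = N * σ := hcs
    have c5 : ∑ x, ind R x s * η x ^ 2 = N * q := by
      rw [hq]
      field_simp
    have c6 : ∑ x, (1 - ind R x s) = N * (1 - σ) := by
      rw [Finset.sum_sub_distrib, c4, Finset.sum_const, nsmul_one, Finset.card_univ, hX]
      ring
    have c7 : ∑ x, (1 - ind R x s) * η x ^ 2 = N * (V - q) := by
      have : ∀ x, (1 - ind R x s) * η x ^ 2 = η x ^ 2 - ind R x s * η x ^ 2 := fun x => by ring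
      simp only [this]
      rw [Finset.sum_sub_distrib, c5, hVd]
      field_simp
    rw [c3, c4, c5] at c1
    rw [c3, c6, c7] at c2
    have c8 : h ^ 2 ≤ σ * q := by
      have : N ^ 2 * h ^ 2 ≤ N ^ 2 * (σ * q) := by nlinarith
      exact le_of_mul_le_mul_left this (by positivity)
    have c9 : h ^ 2 ≤ (1 - σ) * (V - q) := by
      have : N ^ 2 * h ^ 2 ≤ N ^ 2 * ((1 - σ) * (V - q)) := by nlinarith
      exact le_of_mul_le_mul_left this (by positivity)
    nlinarith [mul_le_mul_of_nonneg_left c8 (by linarith : 0 ≤ 1 - σ),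
      mul_le_mul_of_nonneg_left c9 hσ0]
  have hk := key (1 - σ) h V q (δ - 1 / 3) (by linarith) (by linarith) hV0 hhV hqV
  rw [e1, e2, e3, hcs]
  have h5 : (N - N * σ) ^ 2 * (N ^ 3 * (σ * (1 - δ) ^ 2 - 2 * (1 - δ) * h + q)) +
      4 * (N - N * σ) * (N ^ 2 * (σ * (1 - δ) - h)) * (N ^ 2 * ((1 - σ) * δ - h)) +
      16 / 9 * N ^ 5 * (h - V) = N ^ 5 * ((1 - (1 - σ)) * (1 - σ) ^ 2 *
        (4 / 3 - 3 * (δ - 1 / 3) ^ 2) + (1 - σ) ^ 2 * q -
        2 * (1 - σ) * (4 / 3 + (δ - 1 / 3) * (3 * (1 - σ) - 2)) * h +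
      4 * (1 - σ) * h ^ 2 + 16 / 9 * (h - V)) := by
    ring
  rw [h5]
  have h6 := mul_le_mul_of_nonneg_left hk (by positivity : 0 ≤ N ^ 5)
  linarith

omit [DecidableEq X] [DecidableEq Y] in
/-- the number of the labelled induced matchings of size three. -/
theorem Q3_le (N : ℝ) (hX : (Fintype.card X : ℝ) = N) (hY : (Fintype.card Y : ℝ) = N)
    (hN : 0 < N) : Q3 R ≤ 2 / 243 * N ^ 6 := by
  have hm := ind_or R
  -- first step: the bounds for `Q2`
  have h1 : ∀ s x, 24 * (ind R x s * Q2 (ind R) (Ac R s) (Br R x)) ≤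
      ind R x s * ((N - cs R s) ^ 2 * (N - rs R x) ^ 2 +
        4 * ((N - cs R s) * (N - rs R x) * ∑ y, (1 - ind R y s) * rs R y)) := by
    intro s x
    have ha := card_Ac R s
    have hb := card_Br R x
    rw [hX] at ha
    rw [hY] at hb
    have q1 := Q2_le_sq hm (Ac R s) (Br R x)
    have q2 := Q2_le_E hm (Ac R s) (Br R x)
    rw [ha, hb] at q1 q2
    have ha0 : 0 ≤ N - cs R s := by
      rw [← ha]
      positivity
    have hb0 : 0 ≤ N - rs R x := by
      rw [← hb]
      positivity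
    have q3 : E2 (ind R) (Ac R s) (Br R x) ≤ ∑ y, (1 - ind R y s) * rs R y := by
      rw [← sum_Ac]
      refine Finset.sum_le_sum fun y _ => ?_
      exact Finset.sum_le_sum_of_subset_of_nonneg (Finset.subset_univ _)
        fun t _ _ => m_nonneg hm y t
    have q4 := mul_le_mul_of_nonneg_left q3 (mul_nonneg ha0 hb0)
    have q5 : 24 * Q2 (ind R) (Ac R s) (Br R x) ≤ (N - cs R s) ^ 2 * (N - rs R x) ^ 2 +
        4 * ((N - cs R s) * (N - rs R x) * ∑ y, (1 - ind R y s) * rs R y) := by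
      nlinarith
    have q6 := mul_le_mul_of_nonneg_left q5 (m_nonneg hm x s)
    linarith
  have h2 : 24 * Q3 R ≤ ∑ s : Y, ((N - cs R s) ^ 2 * (∑ x, ind R x s * (N - rs R x) ^ 2) +
      4 * (N - cs R s) * (∑ x, ind R x s * (N - rs R x)) * (∑ y, (1 - ind R y s) * rs R y)) := by
    unfold Q3
    rw [Finset.mul_sum]
    refine Finset.sum_le_sum fun s _ => ?_
    rw [Finset.mul_sum]
    refine (Finset.sum_le_sum fun x _ => h1 s x).trans (le_of_eq ?_)
    have : ∀ x, ind R x s * ((N - cs R s) ^ 2 * (N - rs R x) ^ 2 +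
        4 * ((N - cs R s) * (N - rs R x) * ∑ y, (1 - ind R y s) * rs R y)) =
        (N - cs R s) ^ 2 * (ind R x s * (N - rs R x) ^ 2) +
        4 * (N - cs R s) * (∑ y, (1 - ind R y s) * rs R y) * (ind R x s * (N - rs R x)) := by
      intro x
      ring
    simp only [this]
    rw [Finset.sum_add_distrib, ← Finset.mul_sum, ← Finset.mul_sum]
    ring
  -- second step: the sum over the columns
  have h3 := Finset.sum_le_sum fun (s : Y) (_ : s ∈ univ) => col R N hX hN s
  rw [Finset.sum_add_distrib, Finset.sum_const, Finset.card_univ, nsmul_eq_mul, hY] at h3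
  have h4 : ∑ s : Y, 16 / 9 * N ^ 5 *
      ((∑ x, ind R x s * (rs R x / N - (∑ y, rs R y) / N ^ 2)) / N -
        (∑ x, (rs R x / N - (∑ y, rs R y) / N ^ 2) ^ 2) / N) = 0 := by
    rw [← Finset.mul_sum, Finset.sum_sub_distrib, Finset.sum_const, Finset.card_univ, nsmul_eq_mul,
      hY, ← Finset.sum_div, Finset.sum_comm]
    set δ : ℝ := (∑ y, rs R y) / N ^ 2 with hδ
    have e1 : ∀ x, ∑ s : Y, ind R x s * (rs R x / N - δ) = rs R x * (rs R x / N - δ) := by
      intro x
      rw [← Finset.sum_mul]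
      rfl
    simp only [e1]
    have e2 : ∑ x, (rs R x / N - δ) = 0 := by
      rw [Finset.sum_sub_distrib, Finset.sum_const, nsmul_eq_mul, Finset.card_univ, hX,
        ← Finset.sum_div, hδ]
      field_simp
      ring
    have e3 : ∑ x, rs R x * (rs R x / N - δ) = N * ∑ x, (rs R x / N - δ) ^ 2 := by
      have : ∀ x, rs R x * (rs R x / N - δ) = N * (rs R x / N - δ) ^ 2 +
          N * δ * (rs R x / N - δ) := by
        intro x
        field_simp
        ring
      simp only [this]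
      rw [Finset.sum_add_distrib, ← Finset.mul_sum, ← Finset.mul_sum, e2, mul_zero, add_zero]
    rw [e3]
    field_simp
    ring
  rw [h4, add_zero] at h3
  have h5 := h2.trans h3
  nlinarith

end three

end Pool.Agent.Lib.MP059e53
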