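import Mathlib

/-!
# MP_059e53_co: counting bounds for induced matchings of size two and three

`m x s` is the indicator (a real number, `0` or `1`) of the entry `1` of a matrix.
-/

set_option autoImplicit false

namespace Pool.Agent.Lib.MP059e53

open Finset

variable {X Y : Type} [Fintype X] [Fintype Y] [DecidableEq X] [DecidableEq Y]

/-- the number of the induced matchings of size two in `A × B`. -/
def Q2 (m : X → Y → ℝ) (A : Finset X) (B : Finset Y) : ℝ :=
  ∑ t ∈ B, ∑ u ∈ B, ∑ y ∈ A, ∑ z ∈ A, m y t * (1 - m y u) * (m z u * (1 - m z t))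

/-- the number of ones in `A × B`. -/
def E2 (m : X → Y → ℝ) (A : Finset X) (B : Finset Y) : ℝ := ∑ y ∈ A, ∑ t ∈ B, m y t

section two

variable {m : X → Y → ℝ} (hm : ∀ x s, m x s = 0 ∨ m x s = 1) (A : Finset X) (B : Finset Y)

include hm

omit [Fintype X] [Fintype Y] [DecidableEq X] [DecidableEq Y] in
theorem m_nonneg (x : X) (s : Y) : 0 ≤ m x s := by
  rcases hm x s with h | h <;> norm_num [h]

omit [Fintype X] [Fintype Y] [DecidableEq X] [DecidableEq Y] in
theorem m_le (x : X) (s : Y) : m x s ≤ 1 := by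
  rcases hm x s with h | h <;> norm_num [h]

omit [Fintype X] [Fintype Y] [DecidableEq X] [DecidableEq Y] in
theorem m_sq (x : X) (s : Y) : m x s * m x s = m x s := by
  rcases hm x s with h | h <;> norm_num [h]

omit [Fintype X] [Fintype Y] [DecidableEq X] [DecidableEq Y] in
/-- the bound without the density. -/
theorem Q2_le_sq : 8 * Q2 m A B ≤ ((A.card : ℝ) * B.card) ^ 2 := by
  -- `D t u` = the number of the rows where the columns `t`, `u` differ
  set a : ℝ := (A.card : ℝ) with ha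
  set b : ℝ := (B.card : ℝ) with hb
  let p : Y → Y → ℝ := fun t u => ∑ y ∈ A, m y t * (1 - m y u)
  have hp0 : ∀ t u, 0 ≤ p t u := fun t u => Finset.sum_nonneg fun y _ =>
    mul_nonneg (m_nonneg hm y t) (by linarith [m_le hm y u])
  have h1 : Q2 m A B = ∑ t ∈ B, ∑ u ∈ B, p t u * p u t := by
    unfold Q2
    refine Finset.sum_congr rfl fun t _ => Finset.sum_congr rfl fun u _ => ?_
    rw [Finset.sum_mul_sum]
  have h2 : ∀ t u, p t u + p u t ≤ a := by
    intro t u
    rw [← Finset.sum_add_distrib, ha, ← nsmul_one, ← Finset.sum_const]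
    refine Finset.sum_le_sum fun y _ => ?_
    rcases hm y t with h | h <;> rcases hm y u with h' | h' <;> rw [h, h'] <;> norm_num
  have h3 : ∀ t u, 4 * (p t u * p u t) ≤ a * (p t u + p u t) := by
    intro t u
    nlinarith [sq_nonneg (p t u - p u t), hp0 t u, hp0 u t, h2 t u,
      mul_le_mul_of_nonneg_right (h2 t u) (add_nonneg (hp0 t u) (hp0 u t))]
  have h4 : ∑ t ∈ B, ∑ u ∈ B, (p t u + p u t) =
      ∑ y ∈ A, 2 * (b * (∑ t ∈ B, m y t) - (∑ t ∈ B, m y t) ^ 2) := by
    have e1 : ∀ t u, p t u + p u t = ∑ y ∈ A, (m y t + m y u - 2 * (m y t * m y u)) := by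
      intro t u
      rw [← Finset.sum_add_distrib]
      exact Finset.sum_congr rfl fun y _ => by ring
    simp only [e1]
    have e2 : ∀ t, ∑ u ∈ B, ∑ y ∈ A, (m y t + m y u - 2 * (m y t * m y u)) =
        ∑ y ∈ A, (b * m y t + (∑ u ∈ B, m y u) - 2 * (m y t * ∑ u ∈ B, m y u)) := by
      intro t
      rw [Finset.sum_comm]
      refine Finset.sum_congr rfl fun y _ => ?_
      rw [Finset.sum_sub_distrib, Finset.sum_add_distrib, Finset.sum_const, nsmul_eq_mul,
        ← Finset.mul_sum, ← Finset.mul_sum]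
    simp only [e2]
    rw [Finset.sum_comm]
    refine Finset.sum_congr rfl fun y _ => ?_
    rw [Finset.sum_sub_distrib, Finset.sum_add_distrib, Finset.sum_const, nsmul_eq_mul,
      ← Finset.mul_sum, ← Finset.mul_sum, ← Finset.sum_mul]
    ring
  have h5 : ∑ t ∈ B, ∑ u ∈ B, (p t u + p u t) ≤ a * (b ^ 2 / 2) := by
    rw [h4, ha, ← nsmul_eq_mul, ← Finset.sum_const]
    refine Finset.sum_le_sum fun y _ => ?_
    nlinarith [sq_nonneg (b - 2 * ∑ t ∈ B, m y t)]
  have h6 : 4 * Q2 m A B ≤ a * ∑ t ∈ B, ∑ u ∈ B, (p t u + p u t) := by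
    rw [h1, Finset.mul_sum, Finset.mul_sum]
    refine Finset.sum_le_sum fun t _ => ?_
    rw [Finset.mul_sum, Finset.mul_sum]
    exact Finset.sum_le_sum fun u _ => h3 t u
  have ha0 : 0 ≤ a := by positivity
  nlinarith [mul_le_mul_of_nonneg_left h5 ha0]

omit [Fintype X] [Fintype Y] [DecidableEq X] [DecidableEq Y] in
/-- the number of the paths with three edges. -/
theorem path_le : (E2 m A B) ^ 3 ≤ (A.card : ℝ) * B.card *
    ∑ y ∈ A, ∑ u ∈ B, m y u * ((∑ t ∈ B, m y t) * ∑ z ∈ A, m z u) := by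
  set a : ℝ := (A.card : ℝ) with ha
  set b : ℝ := (B.card : ℝ) with hb
  set e : ℝ := E2 m A B with he
  have ha0 : 0 ≤ a := by positivity
  have hb0 : 0 ≤ b := by positivity
  let d : X → ℝ := fun y => ∑ t ∈ B, m y t
  let c : Y → ℝ := fun u => ∑ z ∈ A, m z u
  have hd0 : ∀ y, 0 ≤ d y := fun y => Finset.sum_nonneg fun t _ => m_nonneg hm y t
  have hc0 : ∀ u, 0 ≤ c u := fun u => Finset.sum_nonneg fun z _ => m_nonneg hm z u
  have hPdef : ∑ y ∈ A, ∑ u ∈ B, m y u * ((∑ t ∈ B, m y t) * ∑ z ∈ A, m z u) =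
    ∑ y ∈ A, ∑ u ∈ B, m y u * (d y * c u) := rfl
  rw [hPdef]
  have he0 : 0 ≤ e := Finset.sum_nonneg fun y _ => hd0 y
  have hP0 : 0 ≤ ∑ y ∈ A, ∑ u ∈ B, m y u * (d y * c u) :=
    Finset.sum_nonneg fun y _ => Finset.sum_nonneg fun u _ =>
      mul_nonneg (m_nonneg hm y u) (mul_nonneg (hd0 y) (hc0 u))
  rcases he0.eq_or_lt with h0 | h0
  · rw [← h0]
    have := mul_nonneg (mul_nonneg ha0 hb0) hP0
    simpa using this
  have hA : a ≠ 0 := by
    intro h
    have : A = ∅ := by
      rw [ha, Nat.cast_eq_zero, Finset.card_eq_zero] at h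
      exact h
    rw [he, E2, this, Finset.sum_empty] at h0
    exact lt_irrefl _ h0
  have hB : b ≠ 0 := by
    intro h
    have : B = ∅ := by
      rw [hb, Nat.cast_eq_zero, Finset.card_eq_zero] at h
      exact h
    rw [he, E2, this] at h0
    simp at h0
  have ha1 : 0 < a := lt_of_le_of_ne ha0 (Ne.symm hA)
  have hb1 : 0 < b := lt_of_le_of_ne hb0 (Ne.symm hB)
  -- the pointwise inequality
  have hpt : ∀ y ∈ A, ∀ u ∈ B, 3 * e ^ 2 * m y u - e ^ 3 / a * (m y u / d y) -
      e ^ 3 / b * (m y u / c u) ≤ a * b * (m y u * (d y * c u)) := by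
    intro y hy u hu
    rcases hm y u with h | h
    · rw [h]
      simp
    · have hd1 : 0 < d y := lt_of_lt_of_le (by rw [h]; norm_num)
        (Finset.single_le_sum (f := fun t => m y t) (fun t _ => m_nonneg hm y t) hu)
      have hc1 : 0 < c u := lt_of_lt_of_le (by rw [h]; norm_num)
        (Finset.single_le_sum (f := fun z => m z u) (fun z _ => m_nonneg hm z u) hy)
      rw [h]
      -- AM-GM for three numbers with product one
      have key : ∀ p q r : ℝ, 0 < p → 0 < q → 0 < r → p * q * r = 1 → 3 ≤ p + q + r := by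
        intro p q r hp hq hr hpqr
        by_contra hlt
        push Not at hlt
        have h3 : (p + q + r) ^ 3 < 27 := by
          have h0 : 0 < p + q + r := by positivity
          nlinarith [mul_pos h0 h0, mul_pos (mul_pos h0 h0) h0]
        nlinarith [mul_nonneg hp.le (sq_nonneg (q - r)), mul_nonneg hq.le (sq_nonneg (p - r)),
          mul_nonneg hr.le (sq_nonneg (p - q)), mul_nonneg hp.le (sq_nonneg (p - q)),
          mul_nonneg hp.le (sq_nonneg (p - r)), mul_nonneg hq.le (sq_nonneg (q - p)),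
          mul_nonneg hq.le (sq_nonneg (q - r)), mul_nonneg hr.le (sq_nonneg (r - p)),
          mul_nonneg hr.le (sq_nonneg (r - q))]
      have h2 := key (a * b * (d y * c u) / e ^ 2) (e / (a * d y)) (e / (b * c u)) (by positivity)
        (by positivity) (by positivity) (by field_simp)
      have h3 := mul_le_mul_of_nonneg_left h2 (by positivity : (0 : ℝ) ≤ e ^ 2)
      have h4 : e ^ 2 * (a * b * (d y * c u) / e ^ 2 + e / (a * d y) + e / (b * c u)) =
          a * b * (d y * c u) + e ^ 3 / a * (1 / d y) + e ^ 3 / b * (1 / c u) := by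
        field_simp
      rw [h4] at h3
      linarith
  have hsum := Finset.sum_le_sum fun y hy => Finset.sum_le_sum fun u hu => hpt y hy u hu
  have h1 : ∑ y ∈ A, ∑ u ∈ B, m y u / d y ≤ a := by
    rw [ha, ← nsmul_one, ← Finset.sum_const]
    refine Finset.sum_le_sum fun y _ => ?_
    rw [← Finset.sum_div]
    exact div_self_le_one _
  have h2 : ∑ y ∈ A, ∑ u ∈ B, m y u / c u ≤ b := by
    rw [Finset.sum_comm, hb, ← nsmul_one, ← Finset.sum_const]
    refine Finset.sum_le_sum fun u _ => ?_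
    rw [← Finset.sum_div]
    exact div_self_le_one _
  have h3 : ∑ y ∈ A, ∑ u ∈ B, (3 * e ^ 2 * m y u - e ^ 3 / a * (m y u / d y) -
      e ^ 3 / b * (m y u / c u)) = 3 * e ^ 2 * e - e ^ 3 / a * (∑ y ∈ A, ∑ u ∈ B, m y u / d y) -
      e ^ 3 / b * ∑ y ∈ A, ∑ u ∈ B, m y u / c u := by
    simp only [Finset.sum_sub_distrib, ← Finset.mul_sum]
    rfl
  have h4 : ∑ y ∈ A, ∑ u ∈ B, a * b * (m y u * (d y * c u)) =
      a * b * ∑ y ∈ A, ∑ u ∈ B, m y u * (d y * c u) := by
    simp only [← Finset.mul_sum]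
  rw [h3, h4] at hsum
  have h5 : e ^ 3 / a * (∑ y ∈ A, ∑ u ∈ B, m y u / d y) ≤ e ^ 3 := by
    have := mul_le_mul_of_nonneg_left h1 (by positivity : 0 ≤ e ^ 3 / a)
    rwa [div_mul_cancel₀ _ hA] at this
  have h6 : e ^ 3 / b * (∑ y ∈ A, ∑ u ∈ B, m y u / c u) ≤ e ^ 3 := by
    have := mul_le_mul_of_nonneg_left h2 (by positivity : 0 ≤ e ^ 3 / b)
    rwa [div_mul_cancel₀ _ hB] at this
  nlinarith

omit [Fintype X] [Fintype Y] [DecidableEq X] [DecidableEq Y] in
/-- the bound with the density. -/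
theorem Q2_le_E : 4 * Q2 m A B ≤ (A.card : ℝ) * B.card * E2 m A B := by
  set a : ℝ := (A.card : ℝ) with ha
  set b : ℝ := (B.card : ℝ) with hb
  have hpath := path_le hm A B
  rw [← ha, ← hb] at hpath
  set e : ℝ := E2 m A B with he
  set P : ℝ := ∑ y ∈ A, ∑ u ∈ B, m y u * ((∑ t ∈ B, m y t) * ∑ z ∈ A, m z u) with hP
  have ha0 : 0 ≤ a := by positivity
  have hb0 : 0 ≤ b := by positivity
  have he0 : 0 ≤ e := Finset.sum_nonneg fun y _ => Finset.sum_nonneg fun t _ => m_nonneg hm y t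
  have h1 : Q2 m A B ≤ ∑ t ∈ B, ∑ u ∈ B, ∑ y ∈ A, ∑ z ∈ A, m y t * (1 - m y u) * m z u := by
    unfold Q2
    refine Finset.sum_le_sum fun t _ => Finset.sum_le_sum fun u _ => Finset.sum_le_sum fun y _ =>
      Finset.sum_le_sum fun z _ => ?_
    have h2 : m z u * (1 - m z t) ≤ m z u := by
      nlinarith [m_nonneg hm z u, m_nonneg hm z t, mul_nonneg (m_nonneg hm z u) (m_nonneg hm z t)]
    exact mul_le_mul_of_nonneg_left h2 (mul_nonneg (m_nonneg hm y t) (by linarith [m_le hm y u]))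
  have h2 : ∑ t ∈ B, ∑ u ∈ B, ∑ y ∈ A, ∑ z ∈ A, m y t * (1 - m y u) * m z u = e * e - P := by
    have e1 : ∀ t u, ∑ y ∈ A, ∑ z ∈ A, m y t * (1 - m y u) * m z u =
        (∑ y ∈ A, m y t * (1 - m y u)) * ∑ z ∈ A, m z u := by
      intro t u
      rw [Finset.sum_mul_sum]
    simp only [e1]
    rw [Finset.sum_comm]
    have e2 : ∀ u, ∑ t ∈ B, (∑ y ∈ A, m y t * (1 - m y u)) * ∑ z ∈ A, m z u =
        e * (∑ z ∈ A, m z u) - ∑ y ∈ A, m y u * ((∑ t ∈ B, m y t) * ∑ z ∈ A, m z u) := by
      intro u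
      rw [← Finset.sum_mul, Finset.sum_comm]
      have e3 : ∀ y, ∑ t ∈ B, m y t * (1 - m y u) = (∑ t ∈ B, m y t) - m y u * ∑ t ∈ B, m y t := by
        intro y
        rw [← Finset.sum_mul]
        ring
      simp only [e3]
      rw [Finset.sum_sub_distrib, sub_mul]
      congr 1
      rw [Finset.sum_mul]
      exact Finset.sum_congr rfl fun y _ => by ring
    simp only [e2]
    rw [Finset.sum_sub_distrib, ← Finset.mul_sum, hP]
    congr 1
    · rw [Finset.sum_comm]
      rfl
    · rw [Finset.sum_comm]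
  rw [h2] at h1
  rcases (mul_nonneg ha0 hb0).eq_or_lt with h0 | h0
  · -- `a b = 0`: everything is zero
    have h3 : e = 0 := by
      rcases mul_eq_zero.1 h0.symm with h | h
      · have : A = ∅ := by
          rw [ha, Nat.cast_eq_zero, Finset.card_eq_zero] at h
          exact h
        rw [he, E2, this, Finset.sum_empty]
      · have : B = ∅ := by
          rw [hb, Nat.cast_eq_zero, Finset.card_eq_zero] at h
          exact h
        rw [he, E2, this]
        simp
    have hP0 : 0 ≤ P := Finset.sum_nonneg fun y _ => Finset.sum_nonneg fun u _ =>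
      mul_nonneg (m_nonneg hm y u) (mul_nonneg (Finset.sum_nonneg fun t _ => m_nonneg hm y t)
        (Finset.sum_nonneg fun z _ => m_nonneg hm z u))
    rw [h3] at h1 ⊢
    nlinarith
  · -- `4 (e² - e³ / (a b)) ≤ a b e`
    have h3 : 4 * (e * e - P) * (a * b) ≤ a * b * e * (a * b) := by
      nlinarith [mul_nonneg he0 (sq_nonneg (a * b - 2 * e))]
    have h4 := le_of_mul_le_mul_right h3 h0
    linarith

end two

end Pool.Agent.Lib.MP059e53
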